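import Mathlib

open Set Filter Topology Metric Complex

namespace Pool.Agent.H.MP_81f94f_an

/-- entire, of exponential type, decaying like `exp (-T re z)` on the right half-plane -/
def D (T : ℝ) (F : ℂ → ℂ) : Prop := Differentiable ℂ F ∧ ∃ C K : ℝ, 0 ≤ C ∧ 0 ≤ K ∧
  ∀ z, ‖F z‖ ≤ C * Real.exp (-T * z.re + K * max (-z.re) 0)

lemma D.mono {T T' : ℝ} {F : ℂ → ℂ} (h : D T F) (hT : T' ≤ T) : D T' F := by
  obtain ⟨h1, C, K, hC, hK, h2⟩ := h
  refine ⟨h1, C, K + (T - T'), hC, by linarith, fun z => (h2 z).trans ?_⟩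
  gcongr C * Real.exp ?_
  nlinarith [le_max_left (-z.re) 0, le_max_right (-z.re) 0,
    mul_nonneg (sub_nonneg.2 hT) (show 0 ≤ z.re + max (-z.re) 0 by linarith [le_max_left (-z.re) 0])]

lemma D.mul {T T' : ℝ} {F G : ℂ → ℂ} (h : D T F) (h' : D T' G) : D (T + T') (F * G) := by
  obtain ⟨h1, C, K, hC, hK, h2⟩ := h
  obtain ⟨h1', C', K', hC', hK', h2'⟩ := h'
  refine ⟨h1.mul h1', C * C', K + K', by positivity, by positivity, fun z => ?_⟩
  rw [Pi.mul_apply, norm_mul]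
  refine (mul_le_mul (h2 z) (h2' z) (norm_nonneg _) (by positivity)).trans (le_of_eq ?_)
  rw [mul_mul_mul_comm, ← Real.exp_add]
  ring_nf

lemma D.sub {T : ℝ} {F G : ℂ → ℂ} (h : D T F) (h' : D T G) : D T (F - G) := by
  obtain ⟨h1, C, K, hC, hK, h2⟩ := h
  obtain ⟨h1', C', K', hC', hK', h2'⟩ := h'
  refine ⟨h1.sub h1', C + C', K + K', by positivity, by positivity, fun z => ?_⟩
  have := le_max_right (-z.re) 0
  rw [add_mul C]
  refine (norm_sub_le _ _).trans (add_le_add ((h2 z).trans ?_) ((h2' z).trans ?_)) <;> gcongr <;>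
    linarith

lemma D.deriv {T : ℝ} {F : ℂ → ℂ} (h : D T F) : D T (deriv F) := by
  obtain ⟨h1, C, K, hC, hK, h2⟩ := h
  refine ⟨h1.deriv, C * Real.exp (|T| + K), K, by positivity, hK, fun z => ?_⟩
  refine (norm_deriv_le_of_forall_mem_sphere_norm_le one_pos h1.diffContOnCl fun w hw =>
    (h2 w).trans ?_).trans (div_one _).le
  rw [mul_assoc, ← Real.exp_add]
  gcongr C * Real.exp ?_
  have h3 := (abs_re_le_norm (w - z)).trans (mem_sphere_iff_norm.1 hw).le
  rw [sub_re] at h3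
  have h4 : max (-w.re) 0 ≤ max (-z.re) 0 + 1 :=
    max_le (by linarith [le_max_left (-z.re) 0, neg_abs_le (w.re - z.re)])
      (by linarith [le_max_right (-z.re) 0])
  have h5 : |T * (w.re - z.re)| ≤ |T| := by
    rw [abs_mul]
    exact mul_le_of_le_one_right (abs_nonneg _) h3
  nlinarith [neg_abs_le (T * (w.re - z.re))]

lemma D.sqrt {T : ℝ} {F : ℂ → ℂ} (hF : Differentiable ℂ F) (h : D T (F * F)) : D (T / 2) F := by
  obtain ⟨-, C, K, hC, hK, h2⟩ := h
  refine ⟨hF, √C, K / 2, by positivity, by positivity, fun z => ?_⟩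
  refine (mul_self_le_mul_self_iff (norm_nonneg _) (by positivity)).2 ?_
  rw [← norm_mul, mul_mul_mul_comm, ← Real.exp_add, Real.mul_self_sqrt hC]
  exact (h2 z).trans (le_of_eq (by ring_nf))

lemma gamma (k : ℕ) : ∀ (F G : ℂ → ℂ) (T : ℝ), 0 ≤ T → D 0 F → D 0 G → D T (F * G) →
    D (k / (k + 2) * T) (F * deriv G) := by
  induction k with
  | zero => intro F G T _ hF hG _; simpa using hF.mul hG.deriv
  | succ k ih =>
    intro F G T hT hF hG h
    have hγ : (k : ℝ) / (k + 2) ≤ 1 := (div_le_one (by positivity)).2 (by linarith)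
    have h1 := ih F G T hT hF hG h
    have h2 := ih (deriv G) F _ (by positivity) hG.deriv hF (mul_comm F _ ▸ h1)
    have h3 := ((h1.mono (mul_le_of_le_one_left (by positivity) hγ)).mul h.deriv).sub (h2.mul h)
    refine (D.sqrt h1.1 (T := k / (k + 2) * (k / (k + 2) * T) + T) ?_).mono ?_
    · convert h3 using 1
      funext z
      simp only [Pi.mul_apply, Pi.sub_apply, deriv_mul (hF.1 z) (hG.1 z)]
      ring
    · have : ((k + 1 : ℕ) : ℝ) / ((k + 1 : ℕ) + 2) ≤ (k / (k + 2) * (k / (k + 2)) + 1) / 2 := by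
        push_cast
        field_simp
        nlinarith [k.cast_nonneg (α := ℝ)]
      nlinarith

lemma tit1 {F G : ℂ → ℂ} {T T' : ℝ} (h0 : 0 ≤ T') (hT : T' < T) (hF : D 0 F) (hG : D 0 G)
    (h : D T (F * G)) : D T' (F * deriv G) := by
  obtain ⟨k, hk⟩ := exists_nat_ge (2 * T' / (T - T'))
  refine (gamma k F G T (by linarith) hF hG h).mono ?_
  rw [div_le_iff₀ (by linarith)] at hk
  rw [div_mul_eq_mul_div, le_div_iff₀ (by positivity)]
  linarith

lemma titn {F G : ℂ → ℂ} {T : ℝ} (hF : D 0 F) (hG : D 0 G) (h : D T (F * G)) (j : ℕ) :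
    D 0 (iteratedDeriv j G) ∧ ∀ T', 0 ≤ T' → T' < T → D T' (F * iteratedDeriv j G) := by
  induction j with
  | zero => exact ⟨hG, fun T' _ h' => h.mono h'.le⟩
  | succ j ih =>
    rw [iteratedDeriv_succ]
    exact ⟨ih.1.deriv, fun T' h0 h' => tit1 h0 (show T' < (T' + T) / 2 by linarith) hF ih.1
      (ih.2 _ (by linarith) (by linarith))⟩

lemma PL {H : ℂ → ℂ} {T K C M : ℝ} (hH : Differentiable ℂ H)
    (h1 : ∀ z : ℂ, 0 ≤ z.re → ‖H z‖ ≤ C * Real.exp (K * z.re))
    (h2 : ∃ C', ∀ x : ℝ, 0 ≤ x → ‖H x‖ ≤ C' * Real.exp (-T * x)) (h3 : ∀ y : ℝ, ‖H (y * I)‖ ≤ M)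
    {z : ℂ} (hz : 0 ≤ z.re) : ‖H z‖ ≤ M * Real.exp (-T * z.re) := by
  have hn : ∀ w : ℂ, ‖exp (T * w) * H w‖ = Real.exp (T * w.re) * ‖H w‖ := fun w => by
    rw [norm_mul, norm_exp, re_ofReal_mul]
  have := PhragmenLindelof.right_half_plane_of_bounded_on_real (f := fun w => exp (T * w) * H w)
    (C := M) (Differentiable.diffContOnCl (by fun_prop)) ⟨1, one_lt_two, |T + K|,
      Asymptotics.IsBigO.of_bound |C| (eventually_inf_principal.2 (Eventually.of_forall
        fun w hw => by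
          rw [hn, Real.norm_of_nonneg (Real.exp_pos _).le, Real.rpow_one]
          refine (mul_le_mul_of_nonneg_left (h1 w (le_of_lt hw)) (Real.exp_pos _).le).trans ?_
          rw [mul_left_comm, ← Real.exp_add, ← add_mul]
          gcongr
          exacts [le_abs_self _, le_of_lt hw, le_abs_self _, re_le_norm w]))⟩
    (by
      obtain ⟨C', h2⟩ := h2
      refine ⟨C', eventually_map.2 ((eventually_ge_atTop 0).mono fun x hx => ?_)⟩
      rw [hn, ofReal_re]
      refine (mul_le_mul_of_nonneg_left (h2 x hx) (Real.exp_pos _).le).trans (le_of_eq ?_)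
      rw [mul_left_comm, ← Real.exp_add]
      simp)
    (fun y => by rw [hn]; simpa using h3 y) hz
  rw [hn] at this
  rw [neg_mul, Real.exp_neg, ← div_eq_mul_inv, le_div_iff₀ (Real.exp_pos _)]
  linarith

lemma D.PL {H : ℂ → ℂ} {T M : ℝ} (h : D T H) (h3 : ∀ y : ℝ, ‖H (y * I)‖ ≤ M)
    {z : ℂ} (hz : 0 ≤ z.re) : ‖H z‖ ≤ M * Real.exp (-T * z.re) := by
  obtain ⟨h1, C, K, -, -, h2⟩ := h
  refine Pool.Agent.H.MP_81f94f_an.PL (C := C) (K := -T) h1 (fun w hw => ?_) ⟨C, fun x hx => ?_⟩ h3 hz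
  · simpa [max_eq_right (neg_nonpos.2 hw)] using h2 w
  · simpa [max_eq_right (neg_nonpos.2 hx)] using h2 x

lemma tit {F G : ℂ → ℂ} {T T' δ C : ℝ} (hF : D 0 F) (hG : Differentiable ℂ G) (hδ : 0 ≤ δ)
    (hb : ∀ z, ‖G z‖ ≤ C * Real.exp (δ * max (-z.re) 0)) {w : ℂ} (hw : G w ≠ 0)
    (h : D T (F * G)) (h0 : 0 ≤ T') (hT : T' < T) :
    ∃ C', ∀ x : ℝ, 0 ≤ x → ‖F x‖ ≤ C' * Real.exp (-(T' - 2 * δ) * x) := by
  have hC : 0 ≤ C := nonneg_of_mul_nonneg_left ((norm_nonneg _).trans (hb 0)) (Real.exp_pos _)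
  have hG' : D 0 G := ⟨hG, C, δ, hC, hδ, by simpa using hb⟩
  obtain ⟨-, M, K, hM, -, hFb⟩ := id hF
  refine ⟨M * C * Real.exp (δ * (2 * ‖w‖ + 1)) * 2 / ‖G w‖, fun x hx => ?_⟩
  obtain ⟨R, hR⟩ : ∃ R, R = 2 * ‖w - x‖ + 1 := ⟨_, rfl⟩
  have hR0 : 0 < R := by rw [hR]; positivity
  have h1 : ∀ j : ℕ, ‖F x * iteratedDeriv j G x‖ ≤
      M * (j.factorial * (C * Real.exp (δ * R)) / R ^ j) * Real.exp (-T' * x) := fun j => by
    refine ((titn hF hG' h j).2 T' h0 hT).PL (z := x) (fun y => ?_) hx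
    rw [Pi.mul_apply, norm_mul]
    refine mul_le_mul (by simpa using hFb (y * I)) (norm_iteratedDeriv_le_of_forall_mem_sphere_norm_le
      j hR0 hG.diffContOnCl fun u hu => (hb u).trans ?_) (norm_nonneg _) hM
    gcongr
    have := (abs_re_le_norm (u - y * I)).trans (mem_sphere_iff_norm.1 hu).le
    simp only [sub_re, mul_re, ofReal_re, I_re, mul_zero, ofReal_im, I_im] at this
    exact max_le (by linarith [neg_abs_le u.re, (by simpa using this : |u.re| ≤ R)]) hR0.le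
  have h2 := ((hasSum_taylorSeries_of_entire hG x w).mul_left (F x)).norm_le_of_bounded
    (hasSum_geometric_two.mul_left (M * C * Real.exp (δ * R) * Real.exp (-T' * x))) fun j => by
      have hj : (0 : ℝ) < j.factorial := by exact_mod_cast j.factorial_pos
      rw [smul_eq_mul, smul_eq_mul, mul_left_comm, mul_left_comm (F x), norm_mul, norm_mul, norm_inv,
        norm_pow, Complex.norm_natCast]
      refine (mul_le_mul_of_nonneg_left (mul_le_mul (pow_le_pow_left₀ (norm_nonneg _)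
        (show ‖w - x‖ ≤ R / 2 by linarith) j) (h1 j) (norm_nonneg _) (by positivity))
        (by positivity)).trans (le_of_eq ?_)
      rw [div_pow, div_pow]
      field_simp
      simp
  rw [norm_mul, ← le_div_iff₀ (norm_pos_iff.2 hw)] at h2
  refine h2.trans ?_
  rw [div_mul_eq_mul_div]
  gcongr ?_ / _
  rw [mul_right_comm _ 2]
  gcongr ?_ * 2
  rw [mul_assoc (M * C), mul_assoc (M * C), ← Real.exp_add, ← Real.exp_add]
  gcongr _ * Real.exp ?_
  have := norm_sub_le w x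
  rw [norm_real, Real.norm_of_nonneg hx] at this
  nlinarith [mul_le_mul_of_nonneg_left this hδ]

end Pool.Agent.H.MP_81f94f_an
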