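import Pool.Agent.H.MP_81f94f_an.A

open Set Filter Topology Metric Complex MeasureTheory

namespace Pool.Agent.H.MP_81f94f_an

noncomputable def Lap (ρ : Measure ℝ) (l : ℝ → ℂ) (z : ℂ) : ℂ := ∫ t, exp (z * t) * l t ∂ρ

section
variable {ρ : Measure ℝ} {l : ℝ → ℂ} (hl : Integrable l ρ) (hρ : ∀ᵐ t ∂ρ, t ∈ Ioo (0 : ℝ) 1)
include hl hρ

lemma int_cont {g : ℝ → ℂ} (hg : Continuous g) : Integrable (fun t => g t * l t) ρ := by
  obtain ⟨C, hC⟩ := (isCompact_Icc (a := (0 : ℝ)) (b := 1)).exists_bound_of_continuousOn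
    hg.continuousOn
  exact hl.bdd_mul hg.aestronglyMeasurable (hρ.mono fun t ht => hC t (Ioo_subset_Icc_self ht))

lemma Lap_diff : Differentiable ℂ (Lap ρ l) := fun z => by
  refine (hasDerivAt_integral_of_dominated_loc_of_deriv_le (ball_mem_nhds z one_pos)
    (F' := fun w t => exp (w * t) * t * l t) (bound := fun t => Real.exp (‖z‖ + 1) * ‖l t‖)
    (Eventually.of_forall fun w => (int_cont hl hρ (by fun_prop)).1) (int_cont hl hρ (by fun_prop))
    (int_cont hl hρ (by fun_prop)).1 (hρ.mono fun t ht w hw => ?_) (hl.norm.const_mul _)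
    (Eventually.of_forall fun t w _ => ?_)).2.differentiableAt
  · rw [norm_mul, norm_mul, norm_exp, norm_real, Real.norm_of_nonneg ht.1.le, re_mul_ofReal]
    refine mul_le_mul_of_nonneg_right ((mul_le_of_le_one_right (Real.exp_pos _).le ht.2.le).trans
      (Real.exp_le_exp.2 ?_)) (norm_nonneg _)
    have h1 := norm_sub_norm_le w z
    have h2 := mem_ball_iff_norm.1 hw
    nlinarith [re_le_norm w, norm_nonneg w, ht.1, ht.2]
  · simpa using ((hasDerivAt_id w).mul_const (t : ℂ)).cexp.mul_const (l t)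

lemma Lap_bound {δ : ℝ} (hs : ∀ᵐ t ∂ρ, δ < t → l t = 0) (z : ℂ) :
    ‖exp (-δ * z) * Lap ρ l z‖ ≤ (∫ t, ‖l t‖ ∂ρ) * Real.exp (δ * max (-z.re) 0) := by
  rw [Lap, ← integral_const_mul, ← integral_mul_const]
  refine norm_integral_le_of_norm_le (hl.norm.mul_const _) ?_
  filter_upwards [hρ, hs] with t ht h
  rcases lt_or_ge δ t with h1 | h1
  · simp [h h1]
  rw [← mul_assoc, ← exp_add, norm_mul, norm_exp, mul_comm]
  gcongr _ * Real.exp ?_
  simp only [neg_mul, add_re, neg_re, re_ofReal_mul, re_mul_ofReal]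
  nlinarith [mul_le_mul_of_nonneg_left (le_max_left (-z.re) 0) (sub_nonneg.2 h1),
    mul_nonneg ht.1.le (le_max_right (-z.re) 0)]

lemma Lap_unique (h : ∀ z, Lap ρ l z = 0) : ∫ t, ‖l t‖ ∂ρ = 0 := by
  have h1 : ∀ p : Polynomial ℝ, ∫ t, (p.eval (Real.exp t) : ℝ) * l t ∂ρ = 0 := fun p => by
    induction p using Polynomial.induction_on' with
    | add p q hp hq =>
      simp only [Polynomial.eval_add, ofReal_add, add_mul]
      rw [integral_add (int_cont hl hρ (by fun_prop)) (int_cont hl hρ (by fun_prop)), hp, hq,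
        add_zero]
    | monomial n c =>
      have := h n
      simp only [Polynomial.eval_monomial, ofReal_mul, ofReal_pow, ofReal_exp, ← exp_nat_mul,
        mul_assoc, integral_const_mul]
      exact mul_eq_zero_of_right _ this
  refine integral_eq_zero_of_ae ((ae_eq_zero_of_integral_contDiff_smul_eq_zero
    hl.locallyIntegrable fun g hg _ => ?_).mono fun t ht => by simp [ht])
  have hc := hg.continuous
  refine norm_le_zero_iff.1 (le_of_forall_pos_le_add fun ε hε => ?_)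
  have hW : 0 < (∫ t, ‖l t‖ ∂ρ) + 1 := by positivity
  obtain ⟨p, hp⟩ := exists_polynomial_near_of_continuousOn 1 (Real.exp 1) (fun u => g (Real.log u))
    (hc.comp_continuousOn (Real.continuousOn_log.mono fun u hu => by
      simpa using (one_pos.trans_le hu.1).ne')) _ (div_pos hε hW)
  simp only [real_smul]
  rw [← norm_neg, ← zero_sub, ← h1 p, ← integral_sub (int_cont hl hρ (by fun_prop))
    (int_cont hl hρ (by fun_prop))]
  refine (norm_integral_le_of_norm_le (hl.norm.const_mul (ε / ((∫ t, ‖l t‖ ∂ρ) + 1)))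
    (hρ.mono fun t ht => ?_)).trans ?_
  · rw [← sub_mul, norm_mul, ← ofReal_sub, norm_real]
    have := hp (Real.exp t) ⟨Real.one_le_exp ht.1.le, Real.exp_le_exp.2 ht.2.le⟩
    rw [Real.log_exp] at this
    exact mul_le_mul_of_nonneg_right this.le (norm_nonneg _)
  · rw [integral_const_mul, div_mul_eq_mul_div, div_le_iff₀ hW]
    nlinarith

lemma Lap_one (z : ℂ) :
    ‖exp (-(1 : ℝ) * z) * Lap ρ l z‖ ≤ (∫ t, ‖l t‖ ∂ρ) * Real.exp (1 * max (-z.re) 0) :=
  Lap_bound hl hρ (hρ.mono fun _ ht h => absurd ht.2 h.not_gt) z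

lemma Lap_zero (h : ∀ η : ℝ, 0 < η → ∃ C, ∀ x : ℝ, 0 ≤ x → ‖Lap ρ l x‖ ≤ C * Real.exp (η * x)) :
    ∫ t, ‖l t‖ ∂ρ = 0 := by
  have h1 : ∀ z : ℂ, ‖Lap ρ l z‖ ≤ (∫ t, ‖l t‖ ∂ρ) * Real.exp (1 * max z.re 0) := fun z => by
    have := Lap_one hl hρ z
    rw [norm_mul, norm_exp, ← le_div_iff₀' (Real.exp_pos _), mul_div_assoc, ← Real.exp_sub] at this
    refine this.trans (le_of_eq ?_)
    congr 2
    rcases le_total z.re 0 with h | h <;> simp [h]
  have h2 : ∀ z : ℂ, ‖Lap ρ l z‖ ≤ ∫ t, ‖l t‖ ∂ρ := fun z => by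
    rcases le_total z.re 0 with hz | hz
    · simpa [hz] using h1 z
    have h3 : ∀ η : ℝ, 0 < η → ‖Lap ρ l z‖ ≤ (∫ t, ‖l t‖ ∂ρ) * Real.exp (η * z.re) := fun η hη => by
      simpa using PL (T := -η) (K := 1) (Lap_diff hl hρ) (fun w hw => by simpa [hw] using h1 w)
        (by simpa using h η hη) (fun y => by simpa using h1 (y * I)) hz
    refine ge_of_tendsto (x := 𝓝[>] 0) (tendsto_nhdsWithin_of_tendsto_nhds
      (Continuous.tendsto' (f := fun η : ℝ => (∫ t, ‖l t‖ ∂ρ) * Real.exp (η * z.re))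
        (by fun_prop) _ _ (by simp))) (eventually_mem_nhdsWithin.mono h3)
  refine Lap_unique hl hρ fun z => ?_
  have h3 : Tendsto (fun n : ℕ => Lap ρ l (-n)) atTop (𝓝 (∫ _, 0 ∂ρ)) :=
    tendsto_integral_of_dominated_convergence (fun t => ‖l t‖)
      (fun n => (int_cont hl hρ (by fun_prop)).1) hl.norm
      (fun n => hρ.mono fun t ht => by
        rw [norm_mul, norm_exp]
        refine mul_le_of_le_one_left (norm_nonneg _) (Real.exp_le_one_iff.2 ?_)
        simpa using mul_nonneg n.cast_nonneg ht.1.le)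
      (hρ.mono fun t ht => by
        have := (tendsto_pow_atTop_nhds_zero_of_norm_lt_one (x := exp (-t)) (by
          rw [norm_exp, Real.exp_lt_one_iff]; simpa using ht.1)).mul_const (l t)
        simpa [← exp_nat_mul] using this)
  have h4 := (Lap_diff hl hρ).apply_eq_apply_of_bounded
    (isBounded_iff_forall_norm_le.2 ⟨_, by rintro _ ⟨w, rfl⟩; exact h2 w⟩) z
  simp only [← h4, integral_zero] at h3
  exact tendsto_nhds_unique tendsto_const_nhds h3

end

lemma decay {ρ ρ' ρ'' : Measure ℝ} {l l' l'' : ℝ → ℂ} (hl : Integrable l ρ)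
    (hρ : ∀ᵐ t ∂ρ, t ∈ Ioo (0 : ℝ) 1) (hl' : Integrable l' ρ') (hρ' : ∀ᵐ t ∂ρ', t ∈ Ioo (0 : ℝ) 1)
    (hl'' : Integrable l'' ρ'') (hρ'' : ∀ᵐ t ∂ρ'', t ∈ Ioo (0 : ℝ) 1) {δ : ℝ} (h0 : 0 < δ)
    (h1 : δ ≤ 1) (hs' : ∀ᵐ t ∂ρ', δ < t → l' t = 0) (hs'' : ∀ᵐ t ∂ρ'', δ < t → l'' t = 0)
    (h : ∀ z, Lap ρ'' l'' z = Lap ρ' l' z * Lap ρ l z) (hW : ∫ t, ‖l' t‖ ∂ρ' ≠ 0) :
    ∃ C, ∀ x : ℝ, 0 ≤ x → ‖Lap ρ l x‖ ≤ C * Real.exp (3 * δ * x) := by
  obtain ⟨w, hw⟩ := not_forall.1 (mt (Lap_unique hl' hρ') hW)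
  have d1 := Lap_diff hl hρ
  have d2 := Lap_diff hl' hρ'
  obtain ⟨C, hC⟩ := tit (F := fun z => exp (-(1 : ℝ) * z) * Lap ρ l z) (T := 1) (T' := 1 - δ)
    ⟨by fun_prop, ∫ t, ‖l t‖ ∂ρ, 1, by positivity, zero_le_one, by simpa using Lap_one hl hρ⟩
    (by fun_prop) h0.le (Lap_bound hl' hρ' hs') (mul_ne_zero (exp_ne_zero _) hw)
    ⟨Differentiable.mul (by fun_prop) (by fun_prop), ∫ t, ‖l'' t‖ ∂ρ'', δ, by positivity, h0.le,
      fun z => by
        rw [Pi.mul_apply, mul_assoc, mul_comm (Lap ρ l z), mul_assoc, ← h, norm_mul, norm_exp,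
          Real.exp_add, mul_left_comm]
        exact mul_le_mul (by simp) (Lap_bound hl'' hρ'' hs'' z) (norm_nonneg _) (by positivity)⟩
    (by linarith) (by linarith)
  refine ⟨C, fun x hx => ?_⟩
  have := hC x hx
  rw [norm_mul, norm_exp, ← le_div_iff₀' (Real.exp_pos _), mul_div_assoc, ← Real.exp_sub] at this
  refine this.trans (le_of_eq ?_)
  congr 2
  simp
  ring

end Pool.Agent.H.MP_81f94f_an
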