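import Pool.Agent.H.MP_81f94f_an.B

open Set Filter Topology Metric Complex MeasureTheory

namespace Pool.Agent.H.MP_81f94f_an

noncomputable def J (ρ : Measure ℝ) (l φ : ℝ → ℂ) : ℂ := ∫ t, φ t * l t ∂ρ

def Test (φ : ℝ → ℂ) : Prop := Measurable φ ∧ (∃ C, ∀ t, ‖φ t‖ ≤ C) ∧ ∀ t, 1 ≤ t → φ t = 0

lemma Test.shift {φ : ℝ → ℂ} (h : Test φ) {u : ℝ} (hu : 0 ≤ u) : Test fun s => φ (s + u) :=
  ⟨h.1.comp (measurable_add_const u), h.2.1.imp fun _ hC _ => hC _,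
    fun _ ht => h.2.2 _ (by linarith)⟩

lemma J_le {ρ : Measure ℝ} {l φ : ℝ → ℂ} (hl : Integrable l ρ) {S : Set ℝ} (hS : MeasurableSet S)
    {C : ℝ} (h : ∀ t, ‖φ t‖ ≤ C) (h0 : ∀ t, t ∉ S → φ t = 0) :
    ‖J ρ l φ‖ ≤ C * ∫ t in S, ‖l t‖ ∂ρ := by
  rw [← integral_const_mul, ← integral_indicator hS]
  refine norm_integral_le_of_norm_le ((hl.norm.const_mul C).indicator hS)
    (Eventually.of_forall fun t => ?_)
  by_cases ht : t ∈ S
  · rw [indicator_of_mem ht, norm_mul]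
    exact mul_le_mul_of_nonneg_right (h t) (norm_nonneg _)
  · simp [ht, h0 t ht]

lemma J_test {ρ : Measure ℝ} [SFinite ρ] {l φ : ℝ → ℂ} (hl : Integrable l ρ)
    (hρ : ∀ᵐ t ∂ρ, t ∈ Ioo (0 : ℝ) 1) (h : Test φ) : Test fun t => J ρ l fun s => φ (s + t) := by
  obtain ⟨h1, ⟨C, h2⟩, h3⟩ := h
  refine ⟨?_, ⟨_, fun t => J_le hl .univ (fun s => h2 _) (by simp)⟩, fun t ht =>
    integral_eq_zero_of_ae (hρ.mono fun s hs => by simp [h3 (s + t) (by linarith [hs.1])])⟩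
  have : (fun t => J ρ l fun s => φ (s + t)) = fun t => ∫ s, φ (s + t) * hl.1.mk l s ∂ρ :=
    funext fun t => integral_congr_ae (hl.1.ae_eq_mk.mono fun s hs => by simp [hs])
  rw [this]
  exact (StronglyMeasurable.integral_prod_right' (f := fun p : ℝ × ℝ => φ (p.2 + p.1) *
    hl.1.mk l p.2) (Measurable.stronglyMeasurable (by
      have := hl.1.measurable_mk
      fun_prop))).measurable

lemma le_of_J {ρ : Measure ℝ} {l : ℝ → ℂ} (hl : Integrable l ρ) (hρ : ∀ᵐ t ∂ρ, t ∈ Ioo (0 : ℝ) 1)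
    {S : Set ℝ} (hS : MeasurableSet S) : ∃ φ, Test φ ∧ (∀ t, ‖φ t‖ ≤ 1) ∧ (∀ t, t ∉ S → φ t = 0) ∧
      ∫ t in S, ‖l t‖ ∂ρ ≤ ‖J ρ l φ‖ := by
  have hm := hl.1.measurable_mk
  have hb : ∀ t, ‖(S ∩ Iio 1).indicator (fun t => (‖hl.1.mk l t‖ : ℂ) / hl.1.mk l t) t‖ ≤ 1 :=
    fun t => (norm_indicator_le_norm_self _ _).trans (by simpa using div_self_le_one _)
  refine ⟨_, ⟨Measurable.indicator (by fun_prop) (hS.inter measurableSet_Iio), ⟨1, hb⟩,
    fun t ht => indicator_of_notMem (fun h => h.2.not_ge ht) _⟩, hb,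
    fun t ht => indicator_of_notMem (fun h => ht h.1) _, ?_⟩
  rw [← integral_indicator hS, J, integral_congr_ae
    (g := fun t => ((S.indicator (‖l ·‖) t : ℝ) : ℂ)), integral_complex_ofReal, norm_real]
  · exact le_abs_self _
  filter_upwards [hρ, hl.1.ae_eq_mk] with t ht h
  by_cases h1 : t ∈ S
  · rw [indicator_of_mem h1, indicator_of_mem (show t ∈ S ∩ Iio 1 from ⟨h1, ht.2⟩), ← h]
    by_cases h2 : l t = 0 <;> simp [h2]
  · simp [h1]

variable {ρ : ℕ → Measure ℝ} [∀ n, SFinite (ρ n)] {l : ℕ → ℝ → ℂ}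
  (hl : ∀ n, Integrable (l n) (ρ n)) (hρ : ∀ n, ∀ᵐ t ∂ρ n, t ∈ Ioo (0 : ℝ) 1)
  (hJ : ∀ n φ, Test φ →
    J (ρ (n + 1)) (l (n + 1)) φ = J (ρ 0) (l 0) fun u => J (ρ n) (l n) fun s => φ (s + u))
include hl hρ hJ

lemma semigroup (k n : ℕ) : ∀ φ, Test φ → J (ρ (k + n + 1)) (l (k + n + 1)) φ =
    J (ρ n) (l n) fun t => J (ρ k) (l k) fun s => φ (s + t) := by
  induction n with
  | zero => exact hJ k
  | succ n ih =>
    intro φ h
    rw [← add_assoc, hJ _ _ h, hJ _ _ (J_test (hl k) (hρ k) h)]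
    refine integral_congr_ae ((hρ 0).mono fun u hu => ?_)
    simp only [ih _ (h.shift hu.1.le)]
    simp only [add_assoc]

lemma supp {N m : ℕ} (h : ∀ k ≤ m, ∫ t, ‖l (k * (N + 1) + N) t‖ ∂ρ (k * (N + 1) + N) =
    (∫ t, ‖l N t‖ ∂ρ N) ^ (k + 1)) : ∀ᵐ t ∂ρ N, 1 / (m + 1 : ℝ) < t → l N t = 0 := by
  obtain ⟨δ, hδ⟩ : ∃ δ, δ = 1 / (m + 1 : ℝ) := ⟨_, rfl⟩
  obtain ⟨p, hp⟩ : ∃ p, p = ∫ t in Ioi δ, ‖l N t‖ ∂ρ N := ⟨_, rfl⟩
  have hs := integral_add_compl (measurableSet_Iic (a := δ)) (hl N).norm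
  rw [compl_Iic, ← hp] at hs
  obtain ⟨M, hM⟩ : ∃ M, M = ∫ t, ‖l N t‖ ∂ρ N := ⟨_, rfl⟩
  rw [← hM] at h hs
  have key : ∀ k ≤ m, ∫ t in Iic ((k + 1) * δ), ‖l (k * (N + 1) + N) t‖ ∂ρ (k * (N + 1) + N) ≤
      M ^ (k + 1) - p ^ (k + 1) := fun k => by
    induction k with
    | zero => intro _; simp [← hs]
    | succ k ih =>
      intro hk
      obtain ⟨φ, h1, h2, h3, h4⟩ := le_of_J (hl ((k + 1) * (N + 1) + N)) (hρ _)
        (measurableSet_Iic (a := ((k + 1 : ℕ) + 1) * δ))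
      refine h4.trans ?_
      rw [show (k + 1) * (N + 1) + N = k * (N + 1) + N + N + 1 by ring, semigroup hl hρ hJ _ _ _ h1]
      refine (norm_integral_le_of_norm_le (((hl N).norm.const_mul (M ^ (k + 1))).sub
        (((hl N).norm.const_mul (p ^ (k + 1))).indicator (measurableSet_Ioi (a := δ))))
        (Eventually.of_forall fun t => ?_)).trans (le_of_eq ?_)
      · rw [norm_mul, Pi.sub_apply]
        by_cases ht : t ∈ Ioi δ
        · rw [indicator_of_mem ht, ← sub_mul]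
          refine mul_le_mul_of_nonneg_right ((J_le (hl _) measurableSet_Iic (fun s => h2 _)
            fun s hs => h3 _ ?_).trans ((one_mul _).le.trans (ih (by omega)))) (norm_nonneg _)
          simp only [mem_Iic, mem_Ioi, not_le] at hs ht ⊢
          push_cast
          linarith
        · rw [indicator_of_notMem ht, sub_zero, ← h k (by omega)]
          exact mul_le_mul_of_nonneg_right ((J_le (hl _) .univ (fun s => h2 _) (by simp)).trans
            (by simp)) (norm_nonneg _)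
      · simp only [Pi.sub_apply]
        rw [integral_sub ((hl N).norm.const_mul _) (((hl N).norm.const_mul _).indicator
          measurableSet_Ioi), integral_indicator measurableSet_Ioi, integral_const_mul,
          integral_const_mul, ← hp, ← hM]
        ring
  have h1 := key m le_rfl
  rw [hδ, mul_one_div_cancel (by positivity), Measure.restrict_eq_self_of_ae_mem
    (s := Iic 1) ((hρ _).mono fun t ht => ht.2.le), h m le_rfl] at h1
  have h2 : 0 ≤ p := hp ▸ integral_nonneg fun _ => norm_nonneg _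
  have h3 : p = 0 := pow_eq_zero_iff (n := m + 1) (by omega) |>.1
    (le_antisymm (by linarith) (by positivity))
  rw [hp, integral_eq_zero_iff_of_nonneg (fun _ => norm_nonneg _) (hl N).norm.integrableOn,
    EventuallyEq, ae_restrict_iff' measurableSet_Ioi, hδ] at h3
  exact h3.mono fun t ht h => by simpa using ht h

omit [∀ n, SFinite (ρ n)] hl in
lemma Lap_succ {N : ℕ} {δ : ℝ} (hδ : δ < 1 / 2) (h0 : ∀ᵐ t ∂ρ 0, 1 / 2 < t → l 0 t = 0)
    (h1 : ∀ᵐ t ∂ρ N, δ < t → l N t = 0) (z : ℂ) :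
    Lap (ρ (N + 1)) (l (N + 1)) z = Lap (ρ N) (l N) z * Lap (ρ 0) (l 0) z := by
  obtain ⟨C, hC⟩ := (isCompact_Icc (a := (0 : ℝ)) (b := 1)).exists_bound_of_continuousOn
    (f := fun t => exp (z * t)) (by fun_prop)
  have := hJ N ((Ioo 0 1).indicator fun t => exp (z * t))
    ⟨Measurable.indicator (by fun_prop) measurableSet_Ioo, ⟨max C 0, fun t => by
      by_cases ht : t ∈ Ioo (0 : ℝ) 1
      · simp [ht, hC t (Ioo_subset_Icc_self ht)]
      · simp [ht]⟩, fun t ht => indicator_of_notMem (fun h => h.2.not_ge ht) _⟩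
  refine (integral_congr_ae ((hρ _).mono fun t ht => by simp [ht])).trans (this.trans ?_)
  rw [Lap, Lap, ← integral_const_mul]
  refine integral_congr_ae ?_
  filter_upwards [hρ 0, h0] with u hu h
  rcases lt_or_ge (1 / 2) u with h2 | h2
  · simp [h h2]
  rw [← mul_assoc, ← integral_mul_const, J]
  congr 1
  refine integral_congr_ae ?_
  filter_upwards [hρ N, h1] with s hs h
  rcases lt_or_ge δ s with h3 | h3
  · simp [h h3]
  rw [indicator_of_mem (show s + u ∈ Ioo 0 1 from ⟨by linarith [hs.1, hu.1], by linarith⟩),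
    ofReal_add, mul_add, exp_add]
  ring

omit [∀ n, SFinite (ρ n)] hl hρ hJ in
lemma loglog {j n : ℕ} (h1 : 2 ^ 2 ^ j ≤ n) (h2 : n < 2 ^ 2 ^ j * 2 ^ 2 ^ j) :
    Nat.log 2 (Nat.log 2 n) = j := by
  rw [← pow_add, ← mul_two, ← pow_succ] at h2
  exact Nat.log_eq_of_pow_le_of_lt_pow (Nat.le_log_of_pow_le one_lt_two h1)
    (Nat.log_lt_of_lt_pow (by rintro rfl; simp at h1) h2)

lemma core (hω : ∀ n, ∫ t, ‖l n t‖ ∂ρ n = (1 / 2) ^ ((n + 1) * Nat.log 2 (Nat.log 2 (n + 1)))) :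
    False := by
  have h0 := supp hl hρ hJ (N := 0) (m := 1) fun k hk => by
    rw [hω, hω]
    interval_cases k <;> norm_num
  refine absurd (Lap_zero (hl 0) (hρ 0) fun η hη => ?_) (by rw [hω]; simp)
  obtain ⟨j, hj⟩ := exists_nat_ge (3 / η)
  have h1 : j + 1 < 2 ^ (j + 1) := Nat.lt_two_pow_self
  have h2 : 2 ^ (j + 1) < 2 ^ 2 ^ (j + 1) := Nat.lt_two_pow_self
  have h3 : 2 ^ 2 ≤ 2 ^ 2 ^ (j + 1) := Nat.pow_le_pow_right two_pos (by omega)
  obtain ⟨m, hm⟩ : ∃ m, 2 ^ 2 ^ (j + 1) = m + 2 := ⟨2 ^ 2 ^ (j + 1) - 2, by omega⟩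
  have key : ∀ N, m + 1 ≤ N → N ≤ m + 2 → ∀ᵐ t ∂ρ N, 1 / (m + 1 : ℝ) < t → l N t = 0 :=
    fun N a1 a2 => supp hl hρ hJ fun k hk => by
      rw [hω, hω, loglog (j := j + 1) (by rw [hm]; nlinarith) (by rw [hm]; nlinarith),
        loglog (j := j + 1) (by omega) (by rw [hm]; nlinarith), ← pow_mul]
      congr 1
      ring
  have h4 : (2 : ℝ) ≤ m := by exact_mod_cast (by omega)
  have h5 : (j : ℝ) ≤ m := by exact_mod_cast (by omega)
  have h6 : 1 / (m + 1 : ℝ) < 1 / 2 := one_div_lt_one_div_of_lt two_pos (by linarith)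
  obtain ⟨C, hC⟩ := decay (hl 0) (hρ 0) (hl _) (hρ _) (hl _) (hρ _) (by positivity) (by linarith)
    (key _ le_rfl (by omega)) (key _ (by omega) le_rfl)
    (Lap_succ hρ hJ h6 (by simpa [one_add_one_eq_two] using h0) (key _ le_rfl (by omega)))
    (by rw [hω]; positivity)
  refine ⟨|C|, fun x hx => (hC x hx).trans ?_⟩
  gcongr
  · exact le_abs_self C
  · rw [div_le_iff₀ hη] at hj
    rw [mul_one_div, div_le_iff₀ (by positivity)]
    nlinarith

end Pool.Agent.H.MP_81f94f_an
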