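import Mathlib

open Set MeasureTheory

namespace Pool.Agent.H.MP_81f94f_an

/-- `fpow f n` is the `(n+1)`-fold truncated convolution power of the function `f`. -/
noncomputable def fpow (f : ℝ → ℂ) : ℕ → ℝ → ℂ
  | 0 => f
  | n + 1 => fun t => ∫ s in (0 : ℝ)..t, fpow f n (t - s) * f s

/-- `mpow a n` is the `(n+1)`-fold truncated convolution power of the complex measure `a`. -/
noncomputable def mpow (a : ComplexMeasure ℝ) : ℕ → ComplexMeasure ℝ
  | 0 => a
  | n + 1 => ((VectorMeasure.prod (mpow a n) a (ContinuousLinearMap.mul ℝ ℂ)).map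
      fun p : ℝ × ℝ => p.1 + p.2).restrict (Ioo 0 1)

end Pool.Agent.H.MP_81f94f_an
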