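import Pool.Agent.H.MP_81f94f_an.C
import Pool.Agent.H.MP_81f94f_an.Defs

open Set Filter Topology Metric Complex MeasureTheory

namespace Pool.Agent.H.MP_81f94f_an

lemma fpow_eq (f : ℝ → ℂ) (n : ℕ) {t : ℝ} (ht : t ∈ Ioo (0 : ℝ) 1) : fpow f (n + 1) t =
    ∫ s, (Ioo 0 1).indicator f s * (Ioo 0 1).indicator (fpow f n) (t - s) := by
  simp only [fpow]
  rw [intervalIntegral.integral_of_le ht.1.le, integral_Ioc_eq_integral_Ioo,
    ← integral_indicator measurableSet_Ioo]
  congr 1
  funext s
  by_cases h : s ∈ Ioo 0 t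
  · rw [indicator_of_mem h, indicator_of_mem (show s ∈ Ioo 0 1 from ⟨h.1, h.2.trans ht.2⟩),
      indicator_of_mem (show t - s ∈ Ioo 0 1 from ⟨sub_pos.2 h.2, by linarith [h.1, ht.2]⟩),
      mul_comm]
  · rw [indicator_of_notMem h]
    by_cases h1 : s ∈ Ioo (0 : ℝ) 1
    · rw [indicator_of_notMem (fun h2 : t - s ∈ Ioo 0 1 => h ⟨h1.1, sub_pos.1 h2.1⟩), mul_zero]
    · rw [indicator_of_notMem h1, zero_mul]

lemma fpow_int {f : ℝ → ℂ} (hf : IntegrableOn f (Ioo 0 1)) (n : ℕ) :
    IntegrableOn (fpow f n) (Ioo 0 1) := by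
  induction n with
  | zero => exact hf
  | succ n ih =>
    exact ((hf.integrable_indicator measurableSet_Ioo).convolution_integrand
      (ContinuousLinearMap.mul ℝ ℂ) (ih.integrable_indicator
        measurableSet_Ioo)).integral_prod_left.integrableOn.congr_fun
      (fun t ht => (fpow_eq f n ht).symm) measurableSet_Ioo

lemma J_ind (l φ : ℝ → ℂ) :
    J (volume.restrict (Ioo 0 1)) l φ = ∫ t, φ t * (Ioo 0 1).indicator l t := by
  simp only [J, ← integral_indicator measurableSet_Ioo, ← indicator_mul_right]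

lemma fpow_J {f : ℝ → ℂ} (hf : IntegrableOn f (Ioo 0 1)) (n : ℕ) (φ : ℝ → ℂ) (h : Test φ) :
    J (volume.restrict (Ioo 0 1)) (fpow f (n + 1)) φ = J (volume.restrict (Ioo 0 1)) (fpow f 0)
      fun u => J (volume.restrict (Ioo 0 1)) (fpow f n) fun s => φ (s + u) := by
  obtain ⟨h1, ⟨C, h2⟩, h3⟩ := h
  have h4 := ((hf.integrable_indicator measurableSet_Ioo).convolution_integrand
    (ContinuousLinearMap.mul ℝ ℂ) ((fpow_int hf n).integrable_indicator measurableSet_Ioo)).bdd_mul
    (h1.comp measurable_fst).aestronglyMeasurable (Eventually.of_forall fun p => h2 p.1)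
  have h5 := integral_integral_swap (f := fun t s => φ t * ((Ioo 0 1).indicator f s *
    (Ioo 0 1).indicator (fpow f n) (t - s))) h4
  simp only [J_ind]
  refine Eq.trans ?_ (h5.trans ?_) <;> congr 1 <;> funext t
  · rw [integral_const_mul]
    by_cases ht : t ∈ Ioo (0 : ℝ) 1
    · rw [indicator_of_mem ht, fpow_eq f n ht]
    rw [indicator_of_notMem ht]
    rcases le_or_gt 1 t with h | h
    · simp [h3 t h]
    congr 1
    refine (integral_eq_zero_of_ae (Eventually.of_forall fun s => ?_)).symm
    by_cases hs : s ∈ Ioo (0 : ℝ) 1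
    · simp [indicator_of_notMem (fun h2 : t - s ∈ Ioo 0 1 => ht ⟨by linarith [hs.1, h2.1], h⟩)]
    · simp [hs]
  · rw [← integral_mul_const, ← integral_add_right_eq_self _ t]
    simp only [add_sub_cancel_right, fpow]
    congr 1
    funext s
    ring

lemma of_sets {X Y : Type*} [MeasurableSpace X] [MeasurableSpace Y] {ρ : Measure X}
    {ρ' : Measure Y} [IsFiniteMeasure ρ] [IsFiniteMeasure ρ'] {l : X → ℂ} {l' : Y → ℂ}
    (hl : Integrable l ρ) (hl' : Integrable l' ρ') {T : Y → X} (hT : Measurable T)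
    (h : ∀ E, MeasurableSet E → ∫ t in E, l t ∂ρ = ∫ p in T ⁻¹' E, l' p ∂ρ') {φ : X → ℂ}
    (h1 : Measurable φ) {C : ℝ} (h2 : ∀ t, ‖φ t‖ ≤ C) :
    ∫ t, φ t * l t ∂ρ = ∫ p, φ (T p) * l' p ∂ρ' := by
  have h3 : ∀ g : SimpleFunc X ℂ, ∫ t, g t * l t ∂ρ = ∫ p, g (T p) * l' p ∂ρ' := fun g => by
    induction g using SimpleFunc.induction with
    | @const c E hE =>
      have : ∀ t, SimpleFunc.piecewise E hE (.const _ c) (.const _ 0) t =
          E.indicator (fun _ => c) t := fun t => by by_cases h : t ∈ E <;> simp [h]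
      simp only [this, ← indicator_mul_left]
      rw [integral_indicator hE, integral_const_mul, h E hE, ← integral_const_mul,
        ← integral_indicator (hT hE)]
      congr 1
      funext p
      by_cases hp : T p ∈ E <;> simp [hp]
    | @add f g _ hf hg =>
      obtain ⟨A, hA⟩ := f.exists_forall_norm_le
      obtain ⟨B, hB⟩ := g.exists_forall_norm_le
      simp only [SimpleFunc.coe_add, Pi.add_apply, add_mul]
      rw [integral_add (hl.bdd_mul f.aestronglyMeasurable (.of_forall hA))
        (hl.bdd_mul g.aestronglyMeasurable (.of_forall hB)), hf, hg]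
      exact (integral_add
        (hl'.bdd_mul (f.measurable.comp hT).aestronglyMeasurable (.of_forall fun p => hA _))
        (hl'.bdd_mul (g.measurable.comp hT).aestronglyMeasurable (.of_forall fun p => hB _))).symm
  have hs := h1.stronglyMeasurable
  have hb := fun n t => hs.norm_approxBounded_le (abs_nonneg C) n t
  have ht := fun t => hs.tendsto_approxBounded_of_norm_le ((h2 t).trans (le_abs_self C))
  refine tendsto_nhds_unique (tendsto_integral_of_dominated_convergence _
    (fun n => (hs.approxBounded |C| n).aestronglyMeasurable.mul hl.1) (hl.norm.const_mul |C|)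
    (fun n => .of_forall fun t => (norm_mul_le _ _).trans
      (mul_le_mul_of_nonneg_right (hb n t) (norm_nonneg _)))
    (.of_forall fun t => (ht t).mul_const _)) ?_
  simp only [Pi.mul_apply, h3]
  exact tendsto_integral_of_dominated_convergence _
    (fun n => ((hs.approxBounded |C| n).measurable.comp hT).aestronglyMeasurable.mul hl'.1)
    (hl'.norm.const_mul |C|) (fun n => .of_forall fun t => (norm_mul_le _ _).trans
      (mul_le_mul_of_nonneg_right (hb n _) (norm_nonneg _))) (.of_forall fun t => (ht _).mul_const _)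

lemma polar (c : ComplexMeasure ℝ) (hc : c.restrict (Ioo 0 1) = c) : ∃ (ρ : Measure ℝ) (l : ℝ → ℂ),
    IsFiniteMeasure ρ ∧ Integrable l ρ ∧ (∀ᵐ t ∂ρ, t ∈ Ioo (0 : ℝ) 1) ∧ ρ.withDensityᵥ l = c := by
  let μ := c.re.totalVariation + c.im.totalVariation
  have hl := c.integrable_rnDeriv μ
  have key : ∀ s : SignedMeasure ℝ, s.totalVariation ≪ μ → ∀ E, MeasurableSet E →
      ∫ t in E, s.rnDeriv μ t ∂μ = s E := fun s hs E hE => by
    rw [← withDensityᵥ_apply (s.integrable_rnDeriv μ) hE, s.withDensityᵥ_rnDeriv_eq]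
    rwa [SignedMeasure.absolutelyContinuous_ennreal_iff,
      VectorMeasure.ennrealToMeasure_toENNRealVectorMeasure]
  refine ⟨μ.restrict (Ioo 0 1), c.rnDeriv μ, inferInstance, hl.integrableOn,
    ae_restrict_mem measurableSet_Ioo, ?_⟩
  ext E hE : 1
  rw [withDensityᵥ_apply hl.integrableOn hE, Measure.restrict_restrict hE, ← hc,
    VectorMeasure.restrict_apply _ measurableSet_Ioo hE, hc]
  apply Complex.ext
  · exact (integral_re hl.integrableOn).symm.trans
      (key _ (Measure.le_add_right le_rfl).absolutelyContinuous _ (hE.inter measurableSet_Ioo))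
  · exact (integral_im hl.integrableOn).symm.trans
      (key _ (Measure.le_add_left le_rfl).absolutelyContinuous _ (hE.inter measurableSet_Ioo))

lemma mpow_not {a : ComplexMeasure ℝ} (ha : a.restrict (Ioo 0 1) = a)
    (h : ∀ n, (mpow a n).variation univ =
      ENNReal.ofReal ((1 / 2) ^ ((n + 1) * Nat.log 2 (Nat.log 2 (n + 1))))) : False := by
  choose ρ l h1 h2 h3 h4 using fun n => polar (mpow a n) (by
    cases n with
    | zero => exact ha
    | succ n => simp [mpow, VectorMeasure.restrict_restrict])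
  refine core h2 h3 (fun n φ ⟨a1, ⟨C, a2⟩, a3⟩ => ?_) fun n => ?_
  · have hi := (h2 n).mul_prod (h2 0)
    have hS : MeasurableSet ((fun p : ℝ × ℝ => p.1 + p.2) ⁻¹' Ioo 0 1) :=
      measurable_add measurableSet_Ioo
    have hp : VectorMeasure.prod (mpow a n) a (ContinuousLinearMap.mul ℝ ℂ) =
        ((ρ n).prod (ρ 0)).withDensityᵥ fun p => l n p.1 * l 0 p.2 :=
      VectorMeasure.prod_eq_of_forall_apply_prod fun s t hs ht => by
        rw [withDensityᵥ_apply hi (hs.prod ht), setIntegral_prod_mul, ← withDensityᵥ_apply (h2 n) hs,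
          ← withDensityᵥ_apply (h2 0) ht, h4, h4]
        rfl
    rw [J, of_sets (h2 _) (hi.restrict (s := (fun p : ℝ × ℝ => p.1 + p.2) ⁻¹' Ioo 0 1))
      measurable_add (fun E hE => ?_) a1 a2, setIntegral_eq_integral_of_ae_compl_eq_zero,
      integral_prod_symm _ (hi.bdd_mul (f := fun p : ℝ × ℝ => φ (p.1 + p.2))
        (a1.comp measurable_add).aestronglyMeasurable (.of_forall fun p => a2 _))]
    · simp only [J, ← mul_assoc, integral_mul_const]
    · filter_upwards [Measure.quasiMeasurePreserving_fst.ae (h3 n),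
        Measure.quasiMeasurePreserving_snd.ae (h3 0)] with p b1 b2 b3
      rw [a3, zero_mul]
      exact not_lt.1 fun b4 => b3 ⟨add_pos b1.1 b2.1, b4⟩
    · rw [← withDensityᵥ_apply (h2 _) hE, h4, mpow, VectorMeasure.restrict_apply _ measurableSet_Ioo hE,
        VectorMeasure.map_apply _ measurable_add (hE.inter measurableSet_Ioo), hp,
        withDensityᵥ_apply hi (measurable_add (hE.inter measurableSet_Ioo)),
        Measure.restrict_restrict (measurable_add hE), preimage_inter]
  · have := h n
    rw [← h4, Measure.variation_withDensityᵥ (h2 n), withDensity_apply _ .univ, Measure.restrict_univ,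
      ← ofReal_integral_norm_eq_lintegral_enorm (h2 n)] at this
    exact (ENNReal.ofReal_eq_ofReal_iff (by positivity) (by positivity)).1 this

end Pool.Agent.H.MP_81f94f_an
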